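import Pool.Agent.Helper96.LB3.Stmts

/-! LB3, row PW3: selection of the coordinates. -/

set_option autoImplicit false

open MeasureTheory Module
open scoped ENNReal

namespace Pool.Agent.Helper52.LB3

open Pool.Agent.Helper96.LB3

section

variable {X : Type} [NormedAddCommGroup X] [NormedSpace ℝ X]

/-- if `g` is not a multiple of `f` there is a vector in the kernel of `f` with `g x = 1` -/
theorem exists_one (f g : X →ₗ[ℝ] ℝ) (hf : f ≠ 0) (h : ∀ c : ℝ, g ≠ c • f) :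
    ∃ x, f x = 0 ∧ g x = 1 := by
  obtain ⟨x₀, hx₀⟩ : ∃ x₀, f x₀ ≠ 0 := by
    by_contra hc
    push Not at hc
    exact hf (LinearMap.ext hc)
  obtain ⟨x, hx, hgx⟩ : ∃ x, f x = 0 ∧ g x ≠ 0 := by
    by_contra hc
    push Not at hc
    apply h (g x₀ / f x₀)
    apply LinearMap.ext
    intro x
    have h1 := hc (x - (f x / f x₀) • x₀) (by
      rw [map_sub, map_smul, smul_eq_mul, div_mul_cancel₀ _ hx₀, sub_self])
    rw [map_sub, map_smul, smul_eq_mul, sub_eq_zero] at h1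
    rw [h1, LinearMap.smul_apply, smul_eq_mul]
    ring
  refine ⟨(g x)⁻¹ • x, ?_, ?_⟩
  · rw [map_smul, hx, smul_zero]
  · rw [map_smul, smul_eq_mul, inv_mul_cancel₀ hgx]

/-- parallel strips of a tight body -/
theorem tight_par {ι : Type} (φ : ι → X →ₗ[ℝ] ℝ) (h : ι → ℝ) (hT : Tight φ h) (k l : ι) (c : ℝ)
    (hc : φ l = c • φ k) : h l = |c| * h k := by
  apply le_antisymm
  · obtain ⟨x, hx, hxl⟩ := hT l
    rw [← hxl, hc, LinearMap.smul_apply, smul_eq_mul]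
    calc c * φ k x ≤ |c * φ k x| := le_abs_self _
      _ = |c| * |φ k x| := abs_mul _ _
      _ ≤ |c| * h k := mul_le_mul_of_nonneg_left (hx k) (abs_nonneg _)
  · obtain ⟨x, hx, hxk⟩ := hT k
    have h1 := hx l
    rw [hc, LinearMap.smul_apply, smul_eq_mul, hxk, abs_mul] at h1
    exact (mul_le_mul_of_nonneg_left (le_abs_self _) (abs_nonneg _)).trans h1

end

theorem st_PW3 (hPL3 : ST_PL3) : ST_PW3 := by
  intro X ι _ _ _ _ _ _ φ hd hS hφ hp hm hp0 hm0 hTp hTm hnp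
  have hne : Nonempty ι := by
    by_contra hc
    rw [not_nonempty_iff] at hc
    exact hnp ⟨0, fun u => (hc.false u).elim⟩
  obtain ⟨k, hk⟩ := Finite.exists_max fun u => hp u / hm u
  obtain ⟨l, hl⟩ := Finite.exists_min fun u => hp u / hm u
  have hk' : ∀ u, hp u * hm k ≤ hp k * hm u := fun u =>
    (div_le_div_iff₀ (hm0 u) (hm0 k)).1 (hk u)
  have hl' : ∀ u, hp l * hm u ≤ hp u * hm l := fun u =>
    (div_le_div_iff₀ (hm0 l) (hm0 u)).1 (hl u)
  -- the two functionals are independent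
  have hkl : ∀ c : ℝ, φ l ≠ c • φ k := by
    intro c hc
    have h1 := tight_par φ hp hTp k l c hc
    have h2 := tight_par φ hm hTm k l c hc
    have hc0 : 0 < |c| := by
      rw [abs_pos]
      rintro rfl
      rw [zero_smul] at hc
      exact hφ l hc
    have h3 : hp l / hm l = hp k / hm k := by
      rw [h1, h2, mul_div_mul_left _ _ hc0.ne']
    apply hnp
    refine ⟨hp k / hm k, fun u => ?_⟩
    have h4 : hp u / hm u = hp k / hm k := le_antisymm (hk u) (h3 ▸ hl u)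
    rw [← h4, div_mul_cancel₀ _ (hm0 u).ne']
  have hlk : ∀ c : ℝ, φ k ≠ c • φ l := by
    intro c hc
    have hc0 : c ≠ 0 := by
      rintro rfl
      rw [zero_smul] at hc
      exact hφ k hc
    apply hkl c⁻¹
    rw [hc, smul_smul, inv_mul_cancel₀ hc0, one_smul]
  obtain ⟨x₁, hx₁, hx₁'⟩ := exists_one (φ l) (φ k) (hφ l) hlk
  obtain ⟨x₂, hx₂, hx₂'⟩ := exists_one (φ k) (φ l) (hφ k) hkl
  -- a common zero
  obtain ⟨w, hw, hw0⟩ : ∃ w : X, (φ k w = 0 ∧ φ l w = 0) ∧ w ≠ 0 := by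
    have h1 : LinearMap.ker ((φ k).prod (φ l)) ≠ ⊥ := by
      apply LinearMap.ker_ne_bot_of_finrank_lt
      rw [hd, Module.finrank_prod, Module.finrank_self]
      norm_num
    obtain ⟨w, hw, hw0⟩ := Submodule.exists_mem_ne_zero_of_ne_bot h1
    refine ⟨w, ?_, hw0⟩
    have h2 : ((φ k).prod (φ l)) w = 0 := hw
    exact ⟨congrArg Prod.fst h2, congrArg Prod.snd h2⟩
  let L₀ : ((ℝ × ℝ) × ℝ) →ₗ[ℝ] X :=
    ((LinearMap.toSpanSingleton ℝ X x₁).coprod (LinearMap.toSpanSingleton ℝ X x₂)).coprod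
      (LinearMap.toSpanSingleton ℝ X w)
  have hL₀ : ∀ a b z : ℝ, L₀ ((a, b), z) = a • x₁ + b • x₂ + z • w := fun a b z => rfl
  have hLk : ∀ a b z : ℝ, φ k (L₀ ((a, b), z)) = a := by
    intro a b z
    rw [hL₀, map_add, map_add, map_smul, map_smul, map_smul, hx₁', hx₂, hw.1, smul_zero, smul_zero,
      smul_eq_mul, mul_one, add_zero, add_zero]
  have hLl : ∀ a b z : ℝ, φ l (L₀ ((a, b), z)) = b := by
    intro a b z
    rw [hL₀, map_add, map_add, map_smul, map_smul, map_smul, hx₁, hx₂', hw.2, smul_zero, smul_zero,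
      smul_eq_mul, mul_one, add_zero, zero_add]
  have hinj : Function.Injective L₀ := by
    rw [← LinearMap.ker_eq_bot, LinearMap.ker_eq_bot']
    rintro ⟨⟨a, b⟩, z⟩ h0
    have ha := hLk a b z
    have hb := hLl a b z
    rw [h0, map_zero] at ha hb
    subst ha
    subst hb
    rw [hL₀, zero_smul, zero_smul, zero_add, zero_add, smul_eq_zero] at h0
    rcases h0 with h0 | h0
    · rw [h0]
      rfl
    · exact absurd h0 hw0
  let L : ((ℝ × ℝ) × ℝ) ≃ₗ[ℝ] X := LinearMap.linearEquivOfInjective L₀ hinj (by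
    rw [hd, Module.finrank_prod, Module.finrank_prod, Module.finrank_self])
  have hL : ∀ x, L x = L₀ x := fun x => rfl
  refine ⟨ℝ × ℝ, inferInstance, inferInstance, inferInstance, inferInstance, inferInstance,
    volume, inferInstance, L, ?_⟩
  have hform : ∀ (u : ι) (y : ℝ × ℝ) (z : ℝ),
      ((φ u).comp (L.toLinearMap.comp (LinearMap.inl ℝ (ℝ × ℝ) ℝ))) y + φ u (L (0, 1)) * z =
        φ u x₁ * y.1 + φ u x₂ * y.2 + φ u w * z := by
    intro u y z
    have h1 : ((φ u).comp (L.toLinearMap.comp (LinearMap.inl ℝ (ℝ × ℝ) ℝ))) y =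
        φ u (L₀ ((y.1, y.2), 0)) := rfl
    have h2 : φ u (L (0, 1)) = φ u (L₀ ((0, 0), 1)) := rfl
    rw [h1, h2, hL₀, hL₀]
    simp only [map_add, map_smul, smul_eq_mul, zero_smul, add_zero, zero_add, one_smul]
    ring
  have hAB : ∀ h : ι → ℝ, AB (volume : Measure (ℝ × ℝ))
      (fun u => (φ u).comp (L.toLinearMap.comp (LinearMap.inl ℝ (ℝ × ℝ) ℝ)))
        (fun u => φ u (L (0, 1))) h = (volume : Measure (ℝ × ℝ)).real
        {y | ∃ z : ℝ, ∀ u, |φ u x₁ * y.1 + φ u x₂ * y.2 + φ u w * z| ≤ h u} := by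
    intro h
    unfold AB
    congr 1
    ext y
    refine exists_congr fun z => forall_congr' fun u => ?_
    rw [hform]
  have htouch : ∀ h : ι → ℝ, Tight φ h →
      (∃ y1 y2 z : ℝ, (∀ u, |φ u x₁ * y1 + φ u x₂ * y2 + φ u w * z| ≤ h u) ∧ y1 = h k) ∧
      (∃ y1 y2 z : ℝ, (∀ u, |φ u x₁ * y1 + φ u x₂ * y2 + φ u w * z| ≤ h u) ∧ y2 = h l) := by
    intro h hT
    have hx : ∀ x ∈ KS φ h, ∃ y1 y2 z : ℝ,
        (∀ u, |φ u x₁ * y1 + φ u x₂ * y2 + φ u w * z| ≤ h u) ∧ y1 = φ k x ∧ y2 = φ l x := by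
      intro x hx
      obtain ⟨⟨⟨a, b⟩, z⟩, rfl⟩ := L.surjective x
      refine ⟨a, b, z, fun u => ?_, ?_, ?_⟩
      · have h1 := hx u
        rw [hL, hL₀, map_add, map_add, map_smul, map_smul, map_smul, smul_eq_mul, smul_eq_mul,
          smul_eq_mul] at h1
        rw [mul_comm (φ u x₁), mul_comm (φ u x₂), mul_comm (φ u w)]
        exact h1
      · rw [hL, hLk]
      · rw [hL, hLl]
    constructor
    · obtain ⟨x, hxK, hxk⟩ := hT k
      obtain ⟨y1, y2, z, h1, h2, -⟩ := hx x hxK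
      exact ⟨y1, y2, z, h1, h2.trans hxk⟩
    · obtain ⟨x, hxK, hxl⟩ := hT l
      obtain ⟨y1, y2, z, h1, -, h2⟩ := hx x hxK
      exact ⟨y1, y2, z, h1, h2.trans hxl⟩
  unfold PW
  rw [hAB, hAB, hAB]
  exact hPL3 ι (fun u => φ u x₁) (fun u => φ u x₂) (fun u => φ u w) hp hm k l hp0 hm0 hx₁' hx₂ hw.1
    hx₁ hx₂' hw.2 hk' hl' (htouch hp hTp).1 (htouch hp hTp).2 (htouch hm hTm).1 (htouch hm hTm).2

end Pool.Agent.Helper52.LB3
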